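import Pool.Agent.TH669.AD.Girth

set_option autoImplicit false

/-!
# Erdős' girth conjecture and groups of almost all orders (MP_97687e_co)

For every `η > 0` there is `K` such that for all `x ≥ 8`, `s ≥ 1` all but at most `η x` of the
integers `m ≤ x` have the following property. Let `G` be ANY finite group of order at most `s m`
which acts by automorphisms on a graph `X` with `n` vertices and `e` edges such that all orbits on
the vertices have `m` elements (for instance a group of order `m` acting freely, or, for `n = m`, a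
transitive group with vertex stabilisers of order at most `s`). If `X` has no cycle of length at
most `2 k` and `3 R ≤ k`, then `m ⌊e / n⌋ ^ R ≤ (s log x) ^ K 4 ^ size(R) n`; and if `X` has at
least `c n ^ (1 + 1 / k)` edges, then `m ≤ (s log x) ^ K 4 ^ size(R) (2 / c) ^ R n ^ (1 - R / k)`.

So, for `k ≥ 3` and almost all `m`, large graphs with the number of edges predicted by the
conjecture have no group of automorphisms of order `m` acting freely with fewer than
`n ^ (1 / 5 - ε)` orbits, whatever the structure of the group; in particular they are no Cayley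
graphs of groups of order `m`.

Proof. For most `m` the primes `p > y := (s log x) ^ O(1)` which divide `m` divide it only once and
no divisor `d > 1` of `m t`, `t ≤ s`, is congruent to `1` modulo such a `p`. Hence the Sylow
subgroups of `G` for these primes are normal and their product is a cyclic group, which acts freely
because the stabilisers have order at most `s`; by Mertens' theorem its order is at least
`m / (s log x) ^ K` for most `m`. Now the theorem of the starting files for abelian groups applies.
-/

namespace Pool.Agent.Results.MP_97687e_co.AlmostAllOrders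

/-- `Bound m s B`: for every finite graph `X` with `n` vertices, `e` edges and no cycle of length at
most `2 k`, `k ≥ 1`, every finite group `G` of order at most `s m` acting by automorphisms such that
all orbits on the vertices have `m` elements, and all `R` with `3 R ≤ k`:
`m ⌊e / n⌋ ^ R ≤ B 4 ^ size(R) n`; and `e ≥ c n ^ (1 + 1 / k)`, `c > 0`, implies
`m ≤ B 4 ^ size(R) (2 / c) ^ R n ^ (1 - R / k)`. -/
def Bound (m s : ℕ) (B : ℝ) : Prop :=
  ∀ (V : Type) [Fintype V] [Nonempty V] (X : SimpleGraph V) (G : Type) [Group G] [Finite G]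
    [MulAction G V], Nat.card G ≤ s * m → (∀ v : V, (MulAction.orbit G v).ncard = m) →
    (∀ (a : G) (u v : V), X.Adj u v → X.Adj (a • u) (a • v)) →
    ∀ k : ℕ, 1 ≤ k → (∀ (v : V) (w : X.Walk v v), w.IsCycle → 2 * k < w.length) →
    ∀ R : ℕ, 3 * R ≤ k →
      (m : ℝ) * ((X.edgeSet.ncard / Fintype.card V : ℕ) : ℝ) ^ R ≤
        B * 4 ^ Nat.size R * Fintype.card V ∧
      ∀ c : ℝ, 0 < c → c * (Fintype.card V : ℝ) ^ (1 + 1 / (k : ℝ)) ≤ (X.edgeSet.ncard : ℝ) →
        (m : ℝ) ≤ B * 4 ^ Nat.size R * (2 / c) ^ R *
          (Fintype.card V : ℝ) ^ (1 - (R : ℝ) / (k : ℝ))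

theorem result : ∀ η : ℝ, 0 < η → ∃ K : ℕ, ∀ x s : ℕ, 8 ≤ x → 1 ≤ s →
    ({m : ℕ | 1 ≤ m ∧ m ≤ x ∧ ¬ Bound m s ((s * Real.log x) ^ K)}.ncard : ℝ) ≤ η * x := by
  intro η hη
  obtain ⟨K, hK⟩ := Pool.Agent.TH669.AD.few_bad_pow η hη
  refine ⟨K, fun x s hx hs => ?_⟩
  obtain ⟨y, hsy, hU, hy⟩ := hK x s hx hs
  refine le_trans ?_ hy
  have hfin : {m : ℕ | 1 ≤ m ∧ m ≤ x ∧
        ¬ Pool.Agent.TH669.AD.GoodDeg y s (((s : ℝ) * Real.log x) ^ K) m}.Finite :=
    (Set.finite_Icc 1 x).subset fun n hn => ⟨hn.1, hn.2.1⟩
  refine Nat.cast_le.2 (Set.ncard_le_ncard ?_ hfin)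
  rintro m ⟨h1, h2, h3⟩
  refine ⟨h1, h2, fun hg => h3 ?_⟩
  intro V _ _ X G _ _ _ hG horb haut k hk hgirth R hR
  exact Pool.Agent.TH669.AD.edges_part hU hsy hg h1 V X G horb hG haut k hk hgirth R hR

end Pool.Agent.Results.MP_97687e_co.AlmostAllOrders
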