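import Pool.Agent.TH454.BW.BlowGirth

/-!
# Decision diagrams of graphs of large girth and extremal order

The vertices are the `n = 2 ^ m` strings of `m` bits, in any labelling. An ordered binary decision
diagram of width `w` reads the `2 m` bits of two vertices in some fixed order, each bit once, and
decides whether they are adjacent; it may choose the order and interleave the bits of the two
vertices as it likes. If the girth is greater than four, the graph has at most `w n log₂ n` edges.
Hence the graphs of girth greater than `2 k` with `c' n ^ (1 + 1 / k)` edges which the girth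
conjecture asks for need width `n ^ (1 / k - o(1))`, for every order of the bits. The first bound is
sharp up to a factor of order `log n` for all widths between a constant and `n ^ (1 / 2)`; in
particular the exponent `1 / k` is attained for `k = 2`.
-/

set_option autoImplicit false

namespace Pool.Agent.Results.MP_97687e_co.DecisionDiagrams

open Pool.Agent.H607R2.BW Pool.Agent.TH454.BW

theorem result :
    -- (1) nondeterministic decision diagrams with at most `β` edges at each level
    (∀ (m β : ℕ) (G : SimpleGraph (Str m)),
      HasNObdd β (fun x : Fin 2 → Str m => G.Adj (x 0) (x 1)) → 4 < G.egirth →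
      2 * Nat.card G.edgeSet ≤ β * m * 2 ^ m) ∧
    -- (2) decision diagrams with at most `w` nodes at each level
    (∀ (m w : ℕ) (G : SimpleGraph (Str m)),
      ObddWidth w (fun x : Fin 2 → Str m => G.Adj (x 0) (x 1)) → 4 < G.egirth →
      Nat.card G.edgeSet ≤ w * m * 2 ^ m) ∧
    -- (3) the graphs of the girth conjecture have width about `n ^ (1 / k)` at least
    (∀ (k : ℕ) (c c' : ℝ), 2 ≤ k → 0 < c' → c < 1 / k →
      ∃ m₀ : ℕ, ∀ (m w : ℕ) (G : SimpleGraph (Str m)), m₀ ≤ m →
        ObddWidth w (fun x : Fin 2 → Str m => G.Adj (x 0) (x 1)) →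
        ((2 * k : ℕ) : ℕ∞) < G.egirth →
        c' * ((2 : ℝ) ^ m) ^ (1 + 1 / (k : ℝ)) ≤ Nat.card G.edgeSet →
        ((2 : ℝ) ^ m) ^ c < w) ∧
    -- (4) the bound (2) is sharp up to a factor of order `log n`, for all widths between a constant
    -- and `n ^ (1 / 2)`
    (∀ t m : ℕ, 3 ≤ t → 2 * t + 3 ≤ m → ∃ (w : ℕ) (G : SimpleGraph (Str m)),
      ObddWidth w (fun x : Fin 2 → Str m => G.Adj (x 0) (x 1)) ∧ 4 < G.egirth ∧
      w ≤ 9 * 2 ^ t ∧ 2 ^ t * 2 ^ m ≤ 8 * Nat.card G.edgeSet) :=
  ⟨girth_nobdd_bound, girth_obdd_bound, girth_obdd_asy, girth_tradeoff⟩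

end Pool.Agent.Results.MP_97687e_co.DecisionDiagrams
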