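import Pool.Agent.TH468.GL.Final

/-!
# Dense graphs of large girth: every group of automorphisms with a short law has many orbits

`G` is a graph on `n` vertices with `e` edges and without cycles of length at most `2 k`; a group
`A` acts on the vertices by automorphisms of `G`. The action need not be free or faithful: elements
of `A` may fix vertices, and stabilisers may be large. `A` satisfies a law of length `L`:

* a nontrivial word `u` of length `L` in `r` letters vanishes on `A` (`N = 2 r`), or
* `A` is commutative (`L = 3`, `N = 3`), or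
* `a ^ L = 1` for all `a` (`N = 2`).

Then, for all `R` with `L R ≤ k`, the number `t` of orbits of `A` on the vertices satisfies
`⌊e / n⌋ ^ R ≤ 2 (2 (N - 1) N²) ^ size R * t`. So if `e ≥ c n ^ (1 + 1 / k)`, as in the girth
conjecture, then `t ≥ c' n ^ (R / k)`. For instance for fixed `l` and large `k`, extremal graphs
have no solvable group of automorphisms of derived length at most `l` with boundedly many orbits
(like the Borel subgroups acting on the generalised polygons, which settle `m = 2, 3, 5`).

Idea: take a vertex `v` with the smallest stabiliser. Call `y` a centre for `x` if the stabiliser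
of `y` moves `x` to `N` points or more. Centres in two directions from `x` give, with the law, a
short closed nonbacktracking walk; so we can avoid them on almost all walks from `v`, and on these
walks all stabilisers have comparable orders. Then a halving argument bounds the number of ends of
such walks in one orbit.
-/

set_option autoImplicit false

namespace Pool.Agent.Results.MP_97687e_co.OrbitsShortLaw

theorem result :
    ∀ (V : Type) [Finite V] [Nonempty V] (G : SimpleGraph V) (A : Type) [Group A]
      [MulAction A V] (k : ℕ), 1 ≤ k →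
      (∀ (v : V) (w : G.Walk v v), w.IsCycle → 2 * k < w.length) →
      (∀ (a : A) (x y : V), G.Adj x y → G.Adj (a • x) (a • y)) →
      ∀ N L : ℕ,
        ((∃ (r : ℕ) (u : FreeGroup (Fin r)), u ≠ 1 ∧
            (∀ g : Fin r → A, FreeGroup.lift g u = 1) ∧ L = u.norm ∧ N = 2 * r) ∨
          ((∀ a b : A, a * b = b * a) ∧ L = 3 ∧ N = 3) ∨
          (1 ≤ L ∧ (∀ a : A, a ^ L = 1) ∧ N = 2)) →
        ∀ R : ℕ, L * R ≤ k →
          (G.edgeSet.ncard / Nat.card V) ^ R ≤
            2 * (2 * (N - 1) * N ^ 2) ^ Nat.size R *
              Nat.card (MulAction.orbitRel.Quotient A V) ∧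
          ∀ c : ℝ, 0 < c →
            c * (Nat.card V : ℝ) ^ (1 + 1 / (k : ℝ)) ≤ (G.edgeSet.ncard : ℝ) →
            (c / 2) ^ R * (Nat.card V : ℝ) ^ ((R : ℝ) / (k : ℝ)) ≤
              2 * (((2 * (N - 1) * N ^ 2) ^ Nat.size R : ℕ) : ℝ) *
                (Nat.card (MulAction.orbitRel.Quotient A V) : ℝ) := by
  intro V _ _ G A _ _ k hk hg haut N L hlaw R hR
  have hN : Pool.Agent.H268R2.LB.AltLaw A N L := by
    rcases hlaw with ⟨r, u, hu, hlaw, rfl, rfl⟩ | ⟨hA, rfl, rfl⟩ | ⟨hL, hA, rfl⟩
    · exact Pool.Agent.H268R2.LB.altLaw_word u hu hlaw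
    · exact Pool.Agent.H268R2.LB.altLaw_comm hA
    · exact Pool.Agent.H268R2.LB.altLaw_exponent hL hA
  refine ⟨?_, fun c hc he => ?_⟩
  · exact Pool.Agent.TH468.GL.edges_count hg haut hN (by
      calc 2 * L * R = 2 * (L * R) := by ring
        _ ≤ 2 * k := Nat.mul_le_mul_left _ hR)
  · exact Pool.Agent.TH468.GL.edges_real hk hg haut hN hR hc he

end Pool.Agent.Results.MP_97687e_co.OrbitsShortLaw
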