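import Pool.Agent.TH815.GR12

/-!
# The girth conjecture: regular form, and the structure of extremal graphs

* For all `k` and `α > 0`: there are graphs on `n` vertices of girth greater than `2 k` with at
  least `c n ^ (1 + α)` edges, for all large `n`, if and only if for all `d` there are `d`-regular
  bipartite graphs of girth greater than `2 k` with at most `2 C d ^ (1 / α)` vertices. In
  particular the girth conjecture for the parameter `k` says exactly that the smallest `d`-regular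
  (bipartite) graphs of girth greater than `2 k` have `O(d ^ k)` vertices.

  Proof: by the Chevalley-Warning theorem (Alon, Friedland, Kalai) a graph with more than
  `(q - 1) n` edges, `q` prime, has a nonempty subgraph with all degrees divisible by `q`. Split each
  vertex of degree `a q` into `a` vertices of degree `q`; this creates no short cycles. Take the
  bipartite double cover and remove perfect matchings.

* The vertices of degree greater than `K n ^ (1 / k)` of a graph of girth greater than `2 k` have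
  degree sum at most `8 n + 64 / K * n ^ (1 + 1 / k)`. If the graph has at least `c n ^ (1 + 1 / k)`
  edges, some induced subgraph contains all but a fraction `η` of the edges and has all degrees
  between `(η c / 2) n ^ (1 / k)` and `256 / (η c) * n ^ (1 / k)`, and for `k ≥ 2` every real matrix
  which captures a proportion `η` of the adjacency matrix in the Frobenius norm has rank at least
  `η³ c² n / 1024`.
-/

set_option autoImplicit false

namespace Pool.Agent.Results.MP_97687e_co.RegularForm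

open Finset Pool.TH815.GR

theorem result :
    -- (1) the girth conjecture for the parameter `k` is equivalent to its regular form
    (∀ k : ℕ, 1 ≤ k →
      ((∃ c : ℝ, 0 < c ∧ ∃ N : ℕ, ∀ n ≥ N, ∃ G : SimpleGraph (Fin n),
          ((2 * k : ℕ) : ℕ∞) < G.egirth ∧
          c * (n : ℝ) ^ (1 + 1 / (k : ℝ)) ≤ (G.edgeSet.ncard : ℝ)) ↔
        ∃ C : ℝ, ∀ d : ℕ, 1 ≤ d → ∃ (m : ℕ) (G : SimpleGraph (Fin m ⊕ Fin m)), 0 < m ∧
          (m : ℝ) ≤ C * (d : ℝ) ^ k ∧ ((2 * k : ℕ) : ℕ∞) < G.egirth ∧
          (∀ x y, ¬ G.Adj (Sum.inl x) (Sum.inl y)) ∧ (∀ x y, ¬ G.Adj (Sum.inr x) (Sum.inr y)) ∧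
          ∀ z, (G.neighborSet z).ncard = d)) ∧
    -- (2) the same for every other rate of growth
    (∀ (k : ℕ) (α : ℝ), 0 < α →
      ((∃ c : ℝ, 0 < c ∧ ∃ N : ℕ, ∀ n ≥ N, ∃ G : SimpleGraph (Fin n),
          ((2 * k : ℕ) : ℕ∞) < G.egirth ∧ c * (n : ℝ) ^ (1 + α) ≤ (G.edgeSet.ncard : ℝ)) ↔
        ∃ C : ℝ, ∀ d : ℕ, 1 ≤ d → ∃ (m : ℕ) (G : SimpleGraph (Fin m ⊕ Fin m)), 0 < m ∧
          (m : ℝ) ≤ C * (d : ℝ) ^ (1 / α) ∧ ((2 * k : ℕ) : ℕ∞) < G.egirth ∧
          (∀ x y, ¬ G.Adj (Sum.inl x) (Sum.inl y)) ∧ (∀ x y, ¬ G.Adj (Sum.inr x) (Sum.inr y)) ∧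
          ∀ z, (G.neighborSet z).ncard = d)) ∧
    ∀ (V : Type) [Fintype V] [DecidableEq V] (G : SimpleGraph V) [DecidableRel G.Adj] (k : ℕ),
      ((2 * k : ℕ) : ℕ∞) < G.egirth →
      -- (3) from one graph to regular graphs
      (∀ q d : ℕ, q.Prime → d ≤ q → (q - 1) * Fintype.card V < G.edgeFinset.card →
        ∃ (m : ℕ) (B : SimpleGraph (Fin m ⊕ Fin m)), 0 < m ∧ m * q ≤ 2 * G.edgeFinset.card ∧
          ((2 * k : ℕ) : ℕ∞) < B.egirth ∧
          (∀ x y, ¬ B.Adj (Sum.inl x) (Sum.inl y)) ∧ (∀ x y, ¬ B.Adj (Sum.inr x) (Sum.inr y)) ∧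
          ∀ z, (B.neighborSet z).ncard = d) ∧
      (1 ≤ k →
        -- (4) the tail of the degree sequence
        (∀ K : ℝ, 0 < K →
          ∑ x ∈ univ.filter
              (fun x => K * (Fintype.card V : ℝ) ^ (1 / (k : ℝ)) < (G.degree x : ℝ)),
            (G.degree x : ℝ) ≤
            8 * Fintype.card V + 64 / K * (Fintype.card V : ℝ) ^ (1 + 1 / (k : ℝ))) ∧
        ∀ c η : ℝ, 0 < c → 0 < η → 32 / (η * c) ≤ (Fintype.card V : ℝ) ^ (1 / (k : ℝ)) →
          c * (Fintype.card V : ℝ) ^ (1 + 1 / (k : ℝ)) ≤ (G.edgeFinset.card : ℝ) →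
          -- (5) almost all edges lie in an almost regular induced subgraph
          (∃ U : Finset V,
            (1 - η) * (2 * (G.edgeFinset.card : ℝ)) ≤
              ∑ x ∈ U, ((U.filter fun y => G.Adj x y).card : ℝ) ∧
            ∀ x ∈ U,
              η * c / 2 * (Fintype.card V : ℝ) ^ (1 / (k : ℝ)) ≤
                ((U.filter fun y => G.Adj x y).card : ℝ) ∧
              (G.degree x : ℝ) ≤ 256 / (η * c) * (Fintype.card V : ℝ) ^ (1 / (k : ℝ))) ∧
          -- (6) linear approximate rank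
          (2 ≤ k → ∀ B : Matrix V V ℝ,
            ∑ i, ∑ j, (G.adjMatrix ℝ i j - B i j) ^ 2 ≤
              (1 - η) * ∑ i, ∑ j, G.adjMatrix ℝ i j ^ 2 →
            η ^ 3 * c ^ 2 / 1024 * Fintype.card V ≤ B.rank)) := by
  refine ⟨fun k hk => girthConj_iff_regular hk, fun k α hα => denseForm_iff hα, ?_⟩
  intro V _ _ G _ k hg
  rw [egirth_iff] at hg
  refine ⟨fun q d hq hdq he => regular_of_dense G hg q d hq hdq he, fun hk =>
    ⟨fun K hK => tail G hk hg K hK, fun c η hc hη hn he => ⟨?_, fun hk2 B hB => ?_⟩⟩⟩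
  · exact almost_all G hk hg c η hc hη hn he
  · exact main G hk2 hg c η hc hη hn he B hB

end Pool.Agent.Results.MP_97687e_co.RegularForm
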